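import Pool.Agent.Helper30.WD.Contr

/-! Wavelets with a prescribed dimension function `D`: the space is path connected, and it is
contractible, with contractible balls, as soon as `D` is not almost everywhere equal to `1`. -/

set_option autoImplicit false
open MeasureTheory Filter Topology Set
open scoped ENNReal ComplexConjugate

namespace Pool.Agent.Results.MP_1deea1_an.Contractible

/-- `L²(ℝ)`, complex valued -/
noncomputable abbrev L2 := Lp ℂ 2 (volume : Measure ℝ)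

/-- `ψ_{j,k}(x) = 2^{j/2} ψ(2^j x - k)` -/
noncomputable def dilTrans (ψ : ℝ → ℂ) (j k : ℤ) (x : ℝ) : ℂ :=
  (((2:ℝ) ^ ((j:ℝ) / 2) : ℝ) : ℂ) * ψ ((2:ℝ) ^ j * x - k)

/-- `ψ` is an orthonormal wavelet: the `ψ_{j,k}` are orthonormal, and a square integrable function
orthogonal to all of them vanishes a.e. -/
def IsWavelet (ψ : L2) : Prop :=
  (∀ j k j' k' : ℤ, ∫ x : ℝ, dilTrans ψ j k x * conj (dilTrans ψ j' k' x) =
    if j = j' ∧ k = k' then 1 else 0) ∧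
  (∀ g : ℝ → ℂ, MemLp g 2 → (∀ j k : ℤ, ∫ x : ℝ, g x * conj (dilTrans ψ j k x) = 0) →
    g =ᵐ[volume] 0)

/-- the Fourier transform on `L²(ℝ)`, `∫ f(t) e^{-2πitξ} dt` on integrable functions -/
noncomputable def FT (ψ : L2) : L2 := Lp.fourierTransformₗᵢ ℝ ℂ ψ

/-- the dimension function `∑_{j ≥ 1} ∑_k |ψ^(2^j (ξ + k))|²` -/
noncomputable def dimFun (ψ : L2) (ξ : ℝ) : ℝ≥0∞ :=
  ∑' j : ℕ, ∑' k : ℤ, ‖FT ψ ((2:ℝ) ^ (j + 1) * (ξ + k))‖ₑ ^ 2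

/-- the orthonormal wavelets with dimension function `D` -/
def W (D : ℝ → ℕ) : Set L2 := {ψ | IsWavelet ψ ∧ ∀ᵐ ξ : ℝ, dimFun ψ ξ = D ξ}

open Pool.Agent.Helper30.WD

theorem W_eq (D : ℝ → ℕ) : W D = FrozenSet D := by
  ext f
  constructor
  · rintro ⟨⟨h1, h2⟩, h3⟩
    exact ⟨h1, h2, (Lp.fourierTransformₗᵢ ℝ ℂ f : ℝ → ℂ), Lp.memLp _, T1_trunc f, h3⟩
  · rintro ⟨h1, h2, F, hF, hlim, hd⟩
    have hFe := T1_trunc_unique f F hF hlim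
    refine ⟨⟨h1, h2⟩, ?_⟩
    filter_upwards [dimf_congr hFe, hd] with ξ a b
    rw [← b]; exact a.symm

theorem mem_W_iff (D : ℝ → ℕ) (f : L2) : f ∈ W D ↔ FT f ∈ WW D := by
  rw [W_eq]; exact T3_iff D f

theorem pos_of_ne_one {D : ℝ → ℕ} (hDm : Measurable D) (hDp : Function.Periodic D 1)
    (h2 : ∀ᵐ ξ : ℝ, D ξ + D (ξ + 1 / 2) = D (2 * ξ) + 1) (hne : ¬ ∀ᵐ ξ : ℝ, D ξ = 1) :
    ¬ ∀ᵐ ξ : ℝ, 1 ≤ D ξ := fun h => hne (D_eq_one hDm hDp h2 h)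

/-- the cutting map on the physical side -/
noncomputable def Ecut {D : ℝ → ℕ} (hDm : Measurable D) (ψ₀ ψ₁ : L2) (t : ℝ) : L2 :=
  (Lp.fourierTransformₗᵢ ℝ ℂ).symm (EF hDm (FT ψ₀) (FT ψ₁) t)

theorem FT_Ecut {D : ℝ → ℕ} (hDm : Measurable D) (ψ₀ ψ₁ : L2) (t : ℝ) :
    FT (Ecut hDm ψ₀ ψ₁ t) = EF hDm (FT ψ₀) (FT ψ₁) t :=
  LinearIsometryEquiv.apply_symm_apply _ _

theorem edist_FT (a b : L2) : edist (FT a) (FT b) = edist a b :=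
  (Lp.fourierTransformₗᵢ ℝ ℂ).edist_map a b

theorem Ecut_edist {D : ℝ → ℕ} (hDm : Measurable D) (ψ₀ ψ₁ : L2) (t : ℝ) :
    edist (Ecut hDm ψ₀ ψ₁ t) ψ₁ ≤ edist ψ₀ ψ₁ := by
  rw [← edist_FT, FT_Ecut, ← edist_FT ψ₀ ψ₁, edist_dist, edist_dist, dist_eq_norm, dist_eq_norm]
  apply ENNReal.ofReal_le_ofReal
  have h := EF_pyth hDm (FT ψ₀) (FT ψ₁) (le_refl t)
  rw [sub_self, norm_zero] at h
  have h1 := norm_nonneg (FT ψ₀ - FT ψ₁)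
  have h2 := norm_nonneg (EF hDm (FT ψ₀) (FT ψ₁) t - FT ψ₁)
  have h3 := sq_nonneg ‖FT ψ₀ - EF hDm (FT ψ₀) (FT ψ₁) t‖
  nlinarith

theorem Ecut_continuous {D : ℝ → ℕ} (hDm : Measurable D) :
    Continuous (fun p : L2 × L2 × ℝ => Ecut hDm p.1 p.2.1 p.2.2) := by
  have hU : Continuous (FT) := (Lp.fourierTransformₗᵢ ℝ ℂ).continuous
  unfold Ecut
  exact (Lp.fourierTransformₗᵢ ℝ ℂ).symm.continuous.comp ((EF_continuous hDm).comp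
    ((hU.comp continuous_fst).prodMk ((hU.comp continuous_snd.fst).prodMk continuous_snd.snd)))

theorem contr_aux {D : ℝ → ℕ} (hDm : Measurable D) (hDp : Function.Periodic D 1)
    (hpos : ¬ ∀ᵐ ξ : ℝ, 1 ≤ D ξ) (K : ℝ → Set ℂ) {r : ℝ≥0∞} (hr : 0 < r) {ψ₀ : L2} (hψ₀ : ψ₀ ∈ W D)
    (hK : ∀ᵐ ξ : ℝ, FT ψ₀ ξ ∈ K ξ) :
    ContractibleSpace {ψ : L2 | ψ ∈ W D ∧ edist ψ ψ₀ < r ∧ ∀ᵐ ξ : ℝ, FT ψ ξ ∈ K ξ} := by
  set S : Set L2 := {ψ : L2 | ψ ∈ W D ∧ edist ψ ψ₀ < r ∧ ∀ᵐ ξ : ℝ, FT ψ ξ ∈ K ξ} with hS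
  have h0 : ψ₀ ∈ S := ⟨hψ₀, by rw [edist_self]; exact hr, hK⟩
  rw [contractible_iff_id_nullhomotopic]
  refine ⟨⟨ψ₀, h0⟩, ⟨?_⟩⟩
  have hmem : ∀ (t : ℝ) (ψ : L2), ψ ∈ S → Ecut hDm ψ ψ₀ t ∈ S := by
    rintro t ψ ⟨a, b, c⟩
    refine ⟨?_, (Ecut_edist hDm ψ ψ₀ t).trans_lt b, ?_⟩
    · rw [mem_W_iff, FT_Ecut]
      exact EF_mem hDm hDp ((mem_W_iff D ψ).1 a) ((mem_W_iff D ψ₀).1 hψ₀) t
    · rw [FT_Ecut]
      filter_upwards [EF_or hDm (FT ψ) (FT ψ₀) t, c, hK] with ξ h1 h2 h3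
      rcases h1 with h1 | h1
      · rw [h1]; exact h2
      · rw [h1]; exact h3
  have hcont : Continuous (fun p : unitInterval × S => (⟨Ecut hDm p.2 ψ₀ p.1, hmem _ _ p.2.2⟩ : S)) := by
    apply Continuous.subtype_mk
    exact (Ecut_continuous hDm).comp ((continuous_subtype_val.comp continuous_snd).prodMk
      (continuous_const.prodMk (continuous_subtype_val.comp continuous_fst)))
  refine ⟨⟨fun p => ⟨Ecut hDm p.2 ψ₀ p.1, hmem _ _ p.2.2⟩, hcont⟩, ?_, ?_⟩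
  · intro ψ
    apply Subtype.ext
    change Ecut hDm ψ ψ₀ ((0 : unitInterval) : ℝ) = ψ
    unfold Ecut
    rw [show (((0 : unitInterval) : ℝ)) = 0 from rfl, EF_zero]
    exact LinearIsometryEquiv.symm_apply_apply _ _
  · intro ψ
    apply Subtype.ext
    change Ecut hDm ψ ψ₀ ((1 : unitInterval) : ℝ) = ψ₀
    unfold Ecut
    rw [show (((1 : unitInterval) : ℝ)) = 1 from rfl, EF_one hDm hDp hpos]
    exact LinearIsometryEquiv.symm_apply_apply _ _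

/-- Let `D` be a wavelet dimension function, i.e. (D1)-(D4) hold, and let `W D` be the set of the
orthonormal wavelets in `L²(ℝ)` with dimension function `D`. Then `W D` is path connected. If `D`
is not a.e. equal to `1`, then `W D` contains a wavelet whose Fourier transform has modulus `0` or
`1` a.e., and for every family `K ξ` of sets of complex numbers, every radius `0 < r ≤ ∞` and
every `ψ₀` in `W D` with `ψ₀^(ξ) ∈ K ξ` a.e., the set of the `ψ` in `W D` at distance less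
than `r` from `ψ₀` with `ψ^(ξ) ∈ K ξ` a.e. is contractible. -/
theorem result (D : ℝ → ℕ) (hDm : Measurable D) (hDp : Function.Periodic D 1)
    (h2 : ∀ᵐ ξ : ℝ, D ξ + D (ξ + 1 / 2) = D (2 * ξ) + 1)
    (h3 : ∀ᵐ ξ : ℝ, ((D ξ : ℕ∞) ≤ {k : ℤ | ∀ j : ℕ, 1 ≤ D ((ξ + k) / 2 ^ j)}.encard))
    (h4 : ∀ᵐ ξ : ℝ, ∀ᶠ j : ℕ in Filter.atTop, 1 ≤ D (ξ / 2 ^ j)) :
    IsPathConnected (W D) ∧
    ((¬ ∀ᵐ ξ : ℝ, D ξ = 1) →
      (∃ ψ ∈ W D, ∀ᵐ ξ : ℝ, ‖FT ψ ξ‖ = 0 ∨ ‖FT ψ ξ‖ = 1) ∧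
      ∀ (K : ℝ → Set ℂ) (r : ℝ≥0∞), 0 < r → ∀ ψ₀ ∈ W D, (∀ᵐ ξ : ℝ, FT ψ₀ ξ ∈ K ξ) →
        ContractibleSpace {ψ : L2 | ψ ∈ W D ∧ edist ψ ψ₀ < r ∧ ∀ᵐ ξ : ℝ, FT ψ ξ ∈ K ξ}) := by
  refine ⟨?_, fun hne => ⟨?_, ?_⟩⟩
  · rw [W_eq]
    exact T3 D (WW_isPathConnected hDm hDp h2 h3 h4)
  · have hpos := pos_of_ne_one hDm hDp h2 hne
    have hS := greedy_scset hDm hDp h2 h3 h4 hpos
    obtain ⟨wK, dK⟩ := msf hS h2 (u := fun _ => (1:ℂ)) measurable_const (fun ξ _ => by simp)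
    have hm := mem_WW_toLp wK.mem wK dK
    refine ⟨(Lp.fourierTransformₗᵢ ℝ ℂ).symm (wK.mem.toLp _), ?_, ?_⟩
    · rw [mem_W_iff]
      unfold FT
      rw [LinearIsometryEquiv.apply_symm_apply]
      exact hm
    · unfold FT
      rw [LinearIsometryEquiv.apply_symm_apply]
      filter_upwards [wK.mem.coeFn_toLp] with ξ hξ
      rw [hξ]
      by_cases h : ξ ∈ KS (Scal.S D)
      · right; rw [indicator_of_mem h, norm_one]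
      · left; rw [indicator_of_notMem h, norm_zero]
  · intro K r hr ψ₀ hψ₀ hK
    have hpos := pos_of_ne_one hDm hDp h2 hne
    exact contr_aux hDm hDp hpos K hr hψ₀ hK

end Pool.Agent.Results.MP_1deea1_an.Contractible
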